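import Pool.Agent.Q196.KF.Main

/-!
# The Ky Fan norm inequality `‖L(A,B)‖_(k) ≤ 2 σ₁(A) ‖R(B)‖_(k)` fails

Counterexample with `n = 15` and `k = 15` (trace norm):
`A = I - 2 e₀ e₀ᵀ`, `B = v vᵀ - e₂ e₂ᵀ` (times `25`), `v = (4/5) e₀ + (3/5) e₁`.
With `t = ⟨e₀, B e₀⟩` one has `L(A,B) = -2 (t I + 14 B - 15 e₀ e₀ᵀ B)`. The lower bound for the trace
norm of `L` is the trace of `U L` for an orthogonal `U`.
-/

set_option autoImplicit false

open Pool.Q196.KF

namespace Pool.Agent.Results.MP_03f9bf_an.TraceNorm15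

/-- The inequality asked for in Q1 is false: there are Hermitian `15 × 15` matrices `A, B` with
`‖L(A,B)‖_(15) > 2 σ₁(A) ‖R(B)‖_(15)` (so `n = 15`, `k = n`, the trace norm). -/
theorem result : ∃ A B : Matrix (Fin 15) (Fin 15) ℂ, A.IsHermitian ∧ B.IsHermitian ∧
    2 * sv A 0 * kyFan 15 (RR B) < kyFan 15 (LL A B) :=
  main_a

end Pool.Agent.Results.MP_03f9bf_an.TraceNorm15
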